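import Mathlib
import Pool.Agent.Y984.MD.Final
import Pool.Agent.K1H95.Mix.Bottleneck

set_option autoImplicit false

/-! The censored walk on the union of two subcubes `{x = 1 on I₁} ∪ {x = 1 on I₂}`, where `I₁, I₂`
are disjoint sets of `k` coordinates: the mixing time is at least `n (2^k - 1) / (2 k)`, which is
of order `n / (P(A) log (1 / P(A)))`. Hence the bound `C n log n` does not hold with an absolute
constant for all monotone sets.

Proof: the set `S` of the points of the first subcube outside of the second one has stationary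
measure at most `1/2`, and it can be left only from a point with exactly one zero in `I₂`. The
walk started from the uniform distribution on `S` leaves `S` by time `t` with probability at most
`t` times the bottleneck ratio `k / (2 n (2^k - 1))`. -/

namespace Pool.Agent.Results.MP_52661b_pr.TwoSubcubes

open Finset

/-- The hypercube. -/
abbrev Cube (n : ℕ) : Type := Fin n → Bool

/-- The point obtained by flipping coordinate `i`. -/
def flp {n : ℕ} (x : Cube n) (i : Fin n) : Cube n := Function.update x i (!(x i))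

/-- `A` is monotone (up-closed). -/
def IsUp {n : ℕ} (A : Finset (Cube n)) : Prop :=
  ∀ x ∈ A, ∀ y : Cube n, (∀ i, x i ≤ y i) → y ∈ A

/-- The uniform measure of `A` in the cube. -/
noncomputable def dens {n : ℕ} (A : Finset (Cube n)) : ℝ := (A.card : ℝ) / 2 ^ n

/-- The move with coordinate `i`: flip the coordinate if the result is in `A`. -/
def mv {n : ℕ} (A : Finset (Cube n)) (x : Cube n) (i : Fin n) : Cube n :=
  if flp x i ∈ A then flp x i else x

/-- Transition matrix of the lazy censored walk on `A`. -/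
noncomputable def P {n : ℕ} (A : Finset (Cube n)) : Matrix A A ℝ := fun x y =>
  (1 / 2) * (if y = x then 1 else 0) +
    (1 / 2) * (((univ.filter (fun i : Fin n => mv A x.1 i = y.1)).card : ℝ) / n)

/-- Total variation distance. -/
noncomputable def tv {n : ℕ} {A : Finset (Cube n)} (μ ν : A → ℝ) : ℝ :=
  (1 / 2) * ∑ y, |μ y - ν y|

/-- The uniform distribution on `A`. -/
noncomputable def unif {n : ℕ} (A : Finset (Cube n)) : A → ℝ := fun _ => 1 / (A.card : ℝ)

/-- From every start the law after `t` steps is within `1/4` of uniform. -/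
def Mixed {n : ℕ} (A : Finset (Cube n)) (t : ℕ) : Prop :=
  ∀ x : A, tv ((P A ^ t) x) (unif A) ≤ 1 / 4

/-- The mixing time. -/
noncomputable def tmix {n : ℕ} (A : Finset (Cube n)) : ℕ := sInf {t | Mixed A t}

/-- For all `k ≥ 1` and `n ≥ 2 k` there is a monotone set `A` of measure `2 / 2^k - 1 / 4^k` whose
mixing time (which is attained) is at least `n (2^k - 1) / (2 k)`. In particular no absolute
constant `C` satisfies `tmix A ≤ C n log n` for all `n ≥ 2` and all nonempty monotone `A`. -/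
theorem result :
    (∀ n k : ℕ, 1 ≤ k → 2 * k ≤ n → ∃ A : Finset (Cube n), A.Nonempty ∧ IsUp A ∧
      dens A = 2 / 2 ^ k - 1 / 4 ^ k ∧ Mixed A (tmix A) ∧
      (n : ℝ) * (2 ^ k - 1) / (2 * k) ≤ (tmix A : ℝ)) ∧
    ¬ ∃ C : ℝ, ∀ n : ℕ, 2 ≤ n → ∀ A : Finset (Cube n), A.Nonempty → IsUp A →
      (tmix A : ℝ) ≤ C * (n * Real.log n) := by
  have h1 : ∀ n k : ℕ, 1 ≤ k → 2 * k ≤ n → ∃ A : Finset (Cube n), A.Nonempty ∧ IsUp A ∧
      dens A = 2 / 2 ^ k - 1 / 4 ^ k ∧ Mixed A (tmix A) ∧
      (n : ℝ) * (2 ^ k - 1) / (2 * k) ≤ (tmix A : ℝ) := by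
    intro n k hk h2k
    have hn : 0 < n := by omega
    obtain ⟨I, -, hI⟩ : ∃ I ⊆ (univ : Finset (Fin n)), I.card = k :=
      Finset.exists_subset_card_eq (by rw [Finset.card_univ, Fintype.card_fin]; omega)
    obtain ⟨J, hJs, hJ⟩ : ∃ J ⊆ Iᶜ, J.card = k :=
      Finset.exists_subset_card_eq (by rw [Finset.card_compl, Fintype.card_fin, hI]; omega)
    have hd : Disjoint I J := by
      rw [Finset.disjoint_left]
      intro i hi hj
      exact Finset.mem_compl.mp (hJs hj) hi
    have hne : (Pool.Agent.K1H95.Mix.sub I ∪ Pool.Agent.K1H95.Mix.sub J).Nonempty := by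
      refine ⟨fun _ => true, Finset.mem_union_left _ ?_⟩
      simp [Pool.Agent.K1H95.Mix.sub]
    have hup := Pool.Agent.K1H95.Mix.isUp_sub_union I J
    have hfin := Pool.Agent.Y984.MD.final n (by omega) _ hne hup
    refine ⟨Pool.Agent.K1H95.Mix.sub I ∪ Pool.Agent.K1H95.Mix.sub J, hne, hup, ?_, hfin.1, ?_⟩
    · unfold dens
      have hc := Finset.card_union_add_card_inter (Pool.Agent.K1H95.Mix.sub I)
        (Pool.Agent.K1H95.Mix.sub J)
      rw [Pool.Agent.K1H95.Mix.sub_inter, Pool.Agent.K1H95.Mix.card_sub,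
        Pool.Agent.K1H95.Mix.card_sub, Pool.Agent.K1H95.Mix.card_sub,
        Finset.card_union_of_disjoint hd, hI, hJ] at hc
      have hc' : (((Pool.Agent.K1H95.Mix.sub I ∪ Pool.Agent.K1H95.Mix.sub J).card : ℕ) : ℝ)
          + 2 ^ (n - (k + k)) = 2 ^ (n - k) + 2 ^ (n - k) := by exact_mod_cast hc
      have e1 : (2 : ℝ) ^ n = 2 ^ (n - k) * 2 ^ k := by
        rw [← pow_add]; congr 1; omega
      have e2 : (2 : ℝ) ^ n = 2 ^ (n - (k + k)) * 4 ^ k := by
        rw [show (4 : ℝ) = 2 ^ 2 by norm_num, ← pow_mul, ← pow_add]; congr 1; omega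
      have e3 : (2 : ℝ) ^ (n - k) / 2 ^ n = 1 / 2 ^ k := by
        rw [e1]; field_simp
      have e4 : (2 : ℝ) ^ (n - (k + k)) / 2 ^ n = 1 / 4 ^ k := by
        rw [e2]; field_simp
      have e5 : (((Pool.Agent.K1H95.Mix.sub I ∪ Pool.Agent.K1H95.Mix.sub J).card : ℕ) : ℝ)
          = 2 ^ (n - k) + 2 ^ (n - k) - 2 ^ (n - (k + k)) := by linarith
      rw [e5, sub_div, add_div, e3, e4]
      ring
    · exact Pool.Agent.K1H95.Mix.lower hn I J hI hJ hk hd _ hfin.1
  refine ⟨h1, ?_⟩
  rintro ⟨C, hC⟩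
  have hlim := tendsto_pow_const_div_const_pow_of_one_lt 2 (r := (2 : ℝ)) (by norm_num)
  have hev : ∀ᶠ k : ℕ in Filter.atTop, (k : ℝ) ^ 2 / 2 ^ k < 1 / (4 * |C| + 2) :=
    (tendsto_order.mp hlim).2 _ (by positivity)
  obtain ⟨k, hk1, hk2⟩ := (hev.and (Filter.eventually_ge_atTop 1)).exists
  obtain ⟨A, hne, hup, -, -, hlow⟩ := h1 (2 * k) k hk2 le_rfl
  have hup2 := hC (2 * k) (by omega) A hne hup
  have hkr : (1 : ℝ) ≤ k := by exact_mod_cast hk2
  have hlog : Real.log ((2 * k : ℕ) : ℝ) ≤ 2 * k := by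
    have := Real.log_le_sub_one_of_pos (show (0 : ℝ) < ((2 * k : ℕ) : ℝ) by positivity)
    push_cast at this ⊢
    linarith
  have hlog0 : 0 ≤ Real.log ((2 * k : ℕ) : ℝ) := Real.log_nonneg (by push_cast; linarith)
  have h3 : C * (((2 * k : ℕ) : ℝ) * Real.log ((2 * k : ℕ) : ℝ)) ≤ |C| * (4 * k ^ 2) := by
    calc C * (((2 * k : ℕ) : ℝ) * Real.log ((2 * k : ℕ) : ℝ))
        ≤ |C| * (((2 * k : ℕ) : ℝ) * Real.log ((2 * k : ℕ) : ℝ)) :=
          mul_le_mul_of_nonneg_right (le_abs_self C) (by positivity)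
      _ ≤ |C| * (((2 * k : ℕ) : ℝ) * (2 * k)) := by
          apply mul_le_mul_of_nonneg_left _ (abs_nonneg C)
          exact mul_le_mul_of_nonneg_left hlog (by positivity)
      _ = |C| * (4 * k ^ 2) := by push_cast; ring
  have h4 : ((2 * k : ℕ) : ℝ) * (2 ^ k - 1) / (2 * k) = 2 ^ k - 1 := by
    push_cast
    field_simp
  rw [h4] at hlow
  rw [div_lt_div_iff₀ (by positivity) (by positivity)] at hk1
  have h5 : (2 : ℝ) ^ k - 1 ≤ |C| * (4 * k ^ 2) := hlow.trans (hup2.trans h3)
  nlinarith [abs_nonneg C]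

end Pool.Agent.Results.MP_52661b_pr.TwoSubcubes
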